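import Pool.Agent.Q281.MG.Quot

set_option autoImplicit false

/-!
# Multigraphs and their Tutte polynomials
-/

namespace Pool.Agent.Q281.MG

open MvPolynomial

/-- A multigraph with vertex type `V` and edge type `E`; the edge `e` joins `src e` and `dst e`
(the order of the two ends is irrelevant). Loops and parallel edges are allowed. -/
structure MGraph (V E : Type) where
  /-- one end of an edge -/
  src : E → V
  /-- the other end of an edge -/
  dst : E → V

namespace MGraph

variable {V E : Type}

/-- `k(A)`: the number of connected components of the spanning subgraph `(V, A)`, i.e. of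
classes of the equivalence relation on `V` generated by the edges of `A`. -/
noncomputable def comps (G : MGraph V E) (A : Finset E) : ℕ :=
  Nat.card (Quot (fun a b : V => ∃ e ∈ A, G.src e = a ∧ G.dst e = b))

/-- `r(A) = |V| - k(A)`. -/
noncomputable def rank (G : MGraph V E) (A : Finset E) : ℕ :=
  Nat.card V - G.comps A

/-- The Tutte polynomial, with `x = X 0` and `y = X 1`. -/
noncomputable def tutte [Fintype E] (G : MGraph V E) : MvPolynomial (Fin 2) ℚ :=
  ∑ A : Finset E, (X 0 - 1) ^ (G.rank Finset.univ - G.rank A) * (X 1 - 1) ^ (A.card - G.rank A)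

/-- The vertex contraction `G_{/U}`: all vertices of `U` are identified. -/
def contract (G : MGraph V E) (U : Set V) : MGraph (Quot (fun a b : V => a ∈ U ∧ b ∈ U)) E where
  src e := Quot.mk _ (G.src e)
  dst e := Quot.mk _ (G.dst e)

/-- Delete all loops. -/
def deleteLoops (G : MGraph V E) : MGraph V {e : E // G.src e ≠ G.dst e} where
  src e := G.src e.1
  dst e := G.dst e.1

/-- The set of neighbours of `s`, excluding `s` itself. -/
def nbrs (G : MGraph V E) (s : V) : Set V :=
  {u | u ≠ s ∧ ∃ e, (G.src e = s ∧ G.dst e = u) ∨ (G.src e = u ∧ G.dst e = s)}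

end MGraph

end Pool.Agent.Q281.MG
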