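import Pool.Agent.Q281.MG.Defs

set_option autoImplicit false

/-!
# Enumeration of the edge subsets of an explicit multigraph
-/

namespace Pool.Agent.Q281.MG

/-- merge the classes of `a` and `b` in a list of labels -/
def merge (ℓ : List ℕ) (a b : ℕ) : List ℕ :=
  ℓ.map (fun x => if x = ℓ.getD b 0 then ℓ.getD a 0 else x)

/-- the list `ℓ` labels the points of `Fin n` by the classes of `r` -/
structure Faithful {n : ℕ} (r : Fin n → Fin n → Prop) (ℓ : List ℕ) : Prop where
  len : ℓ.length = n
  iff : ∀ a b : Fin n, ℓ.getD a 0 = ℓ.getD b 0 ↔ Relation.EqvGen r a b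

theorem getD_merge (ℓ : List ℕ) (a b v : ℕ) (hv : v < ℓ.length) :
    (merge ℓ a b).getD v 0 = if ℓ.getD v 0 = ℓ.getD b 0 then ℓ.getD a 0 else ℓ.getD v 0 := by
  unfold merge
  rw [List.getD_eq_getElem _ _ (by simpa using hv), List.getElem_map,
    List.getD_eq_getElem (l := ℓ) (n := v) (d := 0) hv]

theorem Faithful.merge {n : ℕ} {r : Fin n → Fin n → Prop} {ℓ : List ℕ} (h : Faithful r ℓ)
    (a b : Fin n) : Faithful (fun x y => r x y ∨ (x = a ∧ y = b)) (merge ℓ a b) := by
  refine ⟨by simp [MG.merge, h.len], fun x y => ?_⟩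
  rw [getD_merge _ _ _ _ (by rw [h.len]; exact x.2), getD_merge _ _ _ _ (by rw [h.len]; exact y.2)]
  have hup : ∀ u v, Relation.EqvGen r u v →
      Relation.EqvGen (fun x y => r x y ∨ (x = a ∧ y = b)) u v := fun u v huv =>
    Relation.EqvGen.mono (fun _ _ h => Or.inl h) _ _ huv
  have hab : Relation.EqvGen (fun x y => r x y ∨ (x = a ∧ y = b)) a b :=
    Relation.EqvGen.rel _ _ (Or.inr ⟨rfl, rfl⟩)
  constructor
  · intro heq
    split_ifs at heq with h1 h2 h2
    · exact hup _ _ ((h.iff x y).1 (h1.trans h2.symm))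
    · have h3 := hup _ _ ((h.iff x b).1 h1)
      have h4 := hup _ _ ((h.iff a y).1 heq)
      exact (h3.trans _ _ _ (hab.symm _ _)).trans _ _ _ h4
    · have h3 := hup _ _ ((h.iff y b).1 h2)
      have h4 := hup _ _ ((h.iff x a).1 heq)
      exact (h4.trans _ _ _ hab).trans _ _ _ (h3.symm _ _)
    · exact hup _ _ ((h.iff x y).1 heq)
  · intro hxy
    induction hxy with
    | rel x y h1 =>
      rcases h1 with h1 | ⟨rfl, rfl⟩
      · have h2 := (h.iff x y).2 (Relation.EqvGen.rel _ _ h1)
        rw [h2]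
      · split_ifs <;> simp_all
    | refl x => rfl
    | symm x y _ ih => exact ih.symm
    | trans x y z _ _ ih1 ih2 => exact ih1.trans ih2

/-- dictionaries -/
abbrev Dict := List (List ℕ × ℕ)

/-- comparison of keys -/
def cmpK : List ℕ → List ℕ → Ordering
  | [], [] => .eq
  | [], _ :: _ => .lt
  | _ :: _, [] => .gt
  | a :: s, b :: t => if a < b then .lt else if b < a then .gt else cmpK s t

theorem eq_of_cmpK : ∀ (s t : List ℕ), cmpK s t = .eq → s = t
  | [], [] => fun _ => rfl
  | [], _ :: _ => fun h => by simp [cmpK] at h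
  | _ :: _, [] => fun h => by simp [cmpK] at h
  | a :: s, b :: t => fun h => by
    rw [cmpK] at h
    split_ifs at h with h1 h2
    have h3 : a = b := by omega
    rw [h3, eq_of_cmpK s t h]

/-- merging of dictionaries -/
def addD : ℕ → Dict → Dict → Dict
  | 0, s, t => s ++ t
  | _ + 1, [], t => t
  | _ + 1, s, [] => s
  | n + 1, (k, a) :: s, (l, b) :: t =>
    match cmpK k l with
    | .lt => (k, a) :: addD n s ((l, b) :: t)
    | .gt => (l, b) :: addD n ((k, a) :: s) t
    | .eq => (k, a + b) :: addD n s t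

/-- value of a dictionary -/
def evf {R : Type} [AddCommMonoid R] (f : List ℕ → R) (d : Dict) : R :=
  (d.map (fun p => p.2 • f p.1)).sum

theorem evf_addD {R : Type} [AddCommMonoid R] (f : List ℕ → R) :
    ∀ (n : ℕ) (s t : Dict), evf f (addD n s t) = evf f s + evf f t
  | 0, s, t => by simp [addD, evf]
  | _ + 1, [], t => by simp [addD, evf]
  | _ + 1, p :: s, [] => by simp [addD, evf]
  | n + 1, (k, a) :: s, (l, b) :: t => by
    rw [addD]
    rcases hc : cmpK k l with _ | _ | _
    · simp only
      have := evf_addD f n s ((l, b) :: t)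
      simp only [evf, List.map_cons, List.sum_cons] at this ⊢
      rw [this]
      simp only [add_assoc]
    · simp only
      have h1 := eq_of_cmpK _ _ hc
      have := evf_addD f n s t
      simp only [evf, List.map_cons, List.sum_cons] at this ⊢
      rw [this, h1, add_nsmul]
      simp only [add_assoc, add_left_comm, add_comm]
    · simp only
      have := evf_addD f n ((k, a) :: s) t
      simp only [evf, List.map_cons, List.sum_cons] at this ⊢
      rw [this]
      simp only [add_assoc, add_left_comm, add_comm]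

/-- enumeration of the subsets -/
def go (leaf : List ℕ → List (ℕ × ℕ) → List ℕ) :
    List (ℕ × ℕ) → List ℕ → List (ℕ × ℕ) → Dict
  | [], ℓ, acc => [(leaf ℓ acc, 1)]
  | e :: L, ℓ, acc => addD 200 (go leaf L ℓ acc) (go leaf L (merge ℓ e.1 e.2) (e :: acc))

variable {n : ℕ} {E : Type} [DecidableEq E]

/-- the ends of an edge as numbers -/
def pr (G : MGraph (Fin n) E) (e : E) : ℕ × ℕ := ((G.src e : ℕ), (G.dst e : ℕ))

/-- relation of an edge set -/
def relA (G : MGraph (Fin n) E) (A : Finset E) : Fin n → Fin n → Prop :=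
  fun a b => ∃ e ∈ A, G.src e = a ∧ G.dst e = b

theorem Faithful.congr {r r' : Fin n → Fin n → Prop} {ℓ : List ℕ} (h : Faithful r ℓ)
    (h1 : ∀ a b, r a b → r' a b) (h2 : ∀ a b, r' a b → r a b) : Faithful r' ℓ := by
  have : r = r' := by
    funext a b
    exact propext ⟨h1 a b, h2 a b⟩
  rwa [← this]

theorem enum_aux {R : Type} [AddCommMonoid R] (G : MGraph (Fin n) E)
    (leaf : List ℕ → List (ℕ × ℕ) → List ℕ) (f : List ℕ → R) (Φ : Finset E → R)
    (hleaf : ∀ (A : Finset E) (acc : List E) (ℓ : List ℕ), Faithful (relA G A) ℓ → acc.Nodup →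
      acc.toFinset = A → f (leaf ℓ (acc.map (pr G))) = Φ A) :
    ∀ (L : List E) (A₀ : Finset E) (acc : List E) (ℓ : List ℕ), L.Nodup →
      (∀ e ∈ L, e ∉ A₀) → Faithful (relA G A₀) ℓ → acc.Nodup → acc.toFinset = A₀ →
      ∑ A ∈ L.toFinset.powerset, Φ (A ∪ A₀) = evf f (go leaf (L.map (pr G)) ℓ (acc.map (pr G))) := by
  intro L
  induction L with
  | nil =>
    intro A₀ acc ℓ _ _ hℓ hacc hA
    simp only [List.toFinset_nil, Finset.powerset_empty, Finset.sum_singleton, Finset.empty_union,
      List.map_nil, go, evf, List.map_cons, List.sum_cons, List.sum_nil, one_nsmul, add_zero]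
    rw [hleaf A₀ acc ℓ hℓ hacc hA]
  | cons e L ih =>
    intro A₀ acc ℓ hL hd hℓ hacc hA
    rw [List.nodup_cons] at hL
    have heA : e ∉ A₀ := hd e (by simp)
    rw [List.toFinset_cons, Finset.sum_powerset_insert (by simpa using hL.1)]
    rw [List.map_cons, go, evf_addD]
    congr 1
    · exact ih A₀ acc ℓ hL.2 (fun e' he' => hd e' (by simp [he'])) hℓ hacc hA
    · have h1 := ih (insert e A₀) (e :: acc) (merge ℓ (G.src e) (G.dst e)) hL.2 ?_ ?_ ?_ ?_
      · rw [List.map_cons] at h1
        rw [show (pr G e).1 = (G.src e : ℕ) from rfl, show (pr G e).2 = (G.dst e : ℕ) from rfl,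
          ← h1]
        refine Finset.sum_congr rfl fun A _ => ?_
        rw [Finset.union_insert, Finset.insert_union]
      · intro e' he' h2
        rcases Finset.mem_insert.1 h2 with rfl | h2
        · exact hL.1 he'
        · exact hd e' (by simp [he']) h2
      · refine (hℓ.merge (G.src e) (G.dst e)).congr ?_ ?_
        · rintro a b (⟨f, hf, h2⟩ | ⟨rfl, rfl⟩)
          · exact ⟨f, Finset.mem_insert_of_mem hf, h2⟩
          · exact ⟨e, Finset.mem_insert_self _ _, rfl, rfl⟩
        · rintro a b ⟨f, hf, h2, h3⟩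
          rcases Finset.mem_insert.1 hf with rfl | hf
          · exact Or.inr ⟨h2.symm, h3.symm⟩
          · exact Or.inl ⟨f, hf, h2, h3⟩
      · rw [List.nodup_cons]
        refine ⟨fun h => heA ?_, hacc⟩
        rw [← hA]
        simpa using h
      · rw [List.toFinset_cons, hA]

theorem faithful_range (G : MGraph (Fin n) E) : Faithful (relA G ∅) (List.range n) := by
  refine ⟨by simp, fun a b => ?_⟩
  rw [List.getD_eq_getElem _ _ (by simp), List.getD_eq_getElem _ _ (by simp)]
  simp only [List.getElem_range]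
  constructor
  · intro h
    rw [Fin.ext h]
    exact Relation.EqvGen.refl _
  · intro h
    have h1 : ∀ a b : Fin n, Relation.EqvGen (relA G ∅) a b → a = b := by
      intro a b h
      induction h with
      | rel x y h =>
        obtain ⟨e, he, _⟩ := h
        exact absurd he (Finset.notMem_empty _)
      | refl x => rfl
      | symm x y _ ih => exact ih.symm
      | trans x y z _ _ ih1 ih2 => exact ih1.trans ih2
    rw [h1 a b h]

/-- **Enumeration.** -/
theorem enum {R : Type} [AddCommMonoid R] {m : ℕ} (G : MGraph (Fin n) (Fin m))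
    (leaf : List ℕ → List (ℕ × ℕ) → List ℕ) (f : List ℕ → R) (Φ : Finset (Fin m) → R)
    (hleaf : ∀ (A : Finset (Fin m)) (acc : List (Fin m)) (ℓ : List ℕ), Faithful (relA G A) ℓ →
      acc.Nodup → acc.toFinset = A → f (leaf ℓ (acc.map (pr G))) = Φ A) :
    ∑ A : Finset (Fin m), Φ A =
      evf f (go leaf ((List.finRange m).map (pr G)) (List.range n) []) := by
  have h := enum_aux G leaf f Φ hleaf (List.finRange m) ∅ [] (List.range n)
    (List.nodup_finRange m) (fun _ _ => Finset.notMem_empty _) (faithful_range G) List.nodup_nil rfl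
  rw [List.toFinset_finRange, Finset.powerset_univ] at h
  simp only [Finset.union_empty, List.map_nil] at h
  exact h

/-- number of distinct labels -/
theorem Faithful.comps {r : Fin n → Fin n → Prop} {ℓ : List ℕ} (h : Faithful r ℓ) :
    Nat.card (Quot r) = ℓ.dedup.length := by
  have h1 : Nat.card (Quot r) = (Finset.univ.image (fun v : Fin n => ℓ.getD v 0)).card := by
    rw [← Fintype.card_coe, ← Nat.card_eq_fintype_card]
    refine Nat.card_eq_of_bijective (Quot.lift (fun v => ⟨ℓ.getD v 0,
      Finset.mem_image_of_mem _ (Finset.mem_univ v)⟩) ?_) ⟨?_, ?_⟩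
    · intro a b hab
      exact Subtype.ext ((h.iff a b).2 (Relation.EqvGen.rel _ _ hab))
    · rintro ⟨a⟩ ⟨b⟩ hab
      exact Quot.eqvGen_sound ((h.iff a b).1 (congrArg Subtype.val hab))
    · rintro ⟨x, hx⟩
      obtain ⟨v, _, rfl⟩ := Finset.mem_image.1 hx
      exact ⟨Quot.mk _ v, rfl⟩
  rw [h1]
  have h2 : (Finset.univ.image (fun v : Fin n => ℓ.getD v 0)) = ℓ.toFinset := by
    ext x
    rw [Finset.mem_image, List.mem_toFinset, List.mem_iff_getElem]
    constructor
    · rintro ⟨v, _, rfl⟩
      have hv : (v : ℕ) < ℓ.length := by rw [h.len]; exact v.2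
      exact ⟨v, hv, by rw [List.getD_eq_getElem _ _ hv]⟩
    · rintro ⟨i, hi, rfl⟩
      exact ⟨⟨i, by rw [← h.len]; exact hi⟩, Finset.mem_univ _, by
        rw [List.getD_eq_getElem _ _ hi]⟩
  rw [h2, List.card_toFinset]

end Pool.Agent.Q281.MG
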