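import Pool.Agent.Q281.MG.Defs

set_option autoImplicit false

/-!
# The Tutte polynomial lies in the ideal of the vertex contractions
-/

namespace Pool.Agent.Q281.MG

open MvPolynomial

set_option linter.unusedSectionVars false

variable {V E : Type} [Fintype V] [Fintype E]

/-- the relation of the edges `A` together with the identification of `U` -/
def rel (G : MGraph V E) (U : Set V) (A : Finset E) : V → V → Prop :=
  fun a b => (a ∈ U ∧ b ∈ U) ∨ ∃ e ∈ A, G.src e = a ∧ G.dst e = b

/-- number of components after contraction -/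
noncomputable def K (G : MGraph V E) (U : Set V) (A : Finset E) : ℕ := cls (rel G U A)

variable (G : MGraph V E)

open Classical in
theorem K_insert (U : Set V) (A : Finset E) (e : E) : K G U (insert e A) =
    cls (fun x y => rel G U A x y ∨ (x = G.src e ∧ y = G.dst e)) := by
  unfold K
  apply cls_congr
  · rintro a b (h | ⟨f, hf, h1, h2⟩)
    · exact Relation.EqvGen.rel _ _ (Or.inl (Or.inl h))
    · rw [Finset.mem_insert] at hf
      rcases hf with rfl | hf
      · exact Relation.EqvGen.rel _ _ (Or.inr ⟨h1.symm, h2.symm⟩)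
      · exact Relation.EqvGen.rel _ _ (Or.inl (Or.inr ⟨f, hf, h1, h2⟩))
  · rintro a b ((h | ⟨f, hf, h1, h2⟩) | ⟨rfl, rfl⟩)
    · exact Relation.EqvGen.rel _ _ (Or.inl h)
    · exact Relation.EqvGen.rel _ _ (Or.inr ⟨f, Finset.mem_insert_of_mem hf, h1, h2⟩)
    · exact Relation.EqvGen.rel _ _ (Or.inr ⟨e, Finset.mem_insert_self _ _, rfl, rfl⟩)

theorem K_insertU (U : Set V) (A : Finset E) (s u : V) (hs : s ∈ U) : K G (insert u U) A =
    cls (fun x y => rel G U A x y ∨ (x = s ∧ y = u)) := by
  unfold K
  apply cls_congr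
  · rintro a b (⟨ha, hb⟩ | h)
    · have key : ∀ c ∈ insert u U,
          Relation.EqvGen (fun x y => rel G U A x y ∨ (x = s ∧ y = u)) s c := by
        intro c hc
        rcases Set.mem_insert_iff.1 hc with rfl | hc
        · exact Relation.EqvGen.rel _ _ (Or.inr ⟨rfl, rfl⟩)
        · exact Relation.EqvGen.rel _ _ (Or.inl (Or.inl ⟨hs, hc⟩))
      exact (key a ha).symm.trans _ _ _ (key b hb)
    · exact Relation.EqvGen.rel _ _ (Or.inl (Or.inr h))
  · rintro a b ((⟨ha, hb⟩ | h) | ⟨rfl, rfl⟩)
    · exact Relation.EqvGen.rel _ _ (Or.inl ⟨Set.mem_insert_of_mem _ ha, Set.mem_insert_of_mem _ hb⟩)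
    · exact Relation.EqvGen.rel _ _ (Or.inr h)
    · exact Relation.EqvGen.rel _ _ (Or.inl ⟨Set.mem_insert_of_mem _ hs, Set.mem_insert _ _⟩)

open Classical in
/-- an edge between `s ∈ U` and `u` has the same effect as adding `u` to `U` -/
theorem K_edge (U : Set V) (A : Finset E) (s u : V) (hs : s ∈ U) (e : E)
    (he : (G.src e = s ∧ G.dst e = u) ∨ (G.src e = u ∧ G.dst e = s)) :
    K G U (insert e A) = K G (insert u U) A := by
  rw [K_insert, K_insertU G U A s u hs]
  apply cls_congr
  · rintro a b (h | ⟨rfl, rfl⟩)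
    · exact Relation.EqvGen.rel _ _ (Or.inl h)
    · rcases he with ⟨h1, h2⟩ | ⟨h1, h2⟩
      · rw [h1, h2]
        exact Relation.EqvGen.rel _ _ (Or.inr ⟨rfl, rfl⟩)
      · rw [h1, h2]
        exact Relation.EqvGen.symm _ _ (Relation.EqvGen.rel _ _ (Or.inr ⟨rfl, rfl⟩))
  · rintro a b (h | ⟨rfl, rfl⟩)
    · exact Relation.EqvGen.rel _ _ (Or.inl h)
    · rcases he with ⟨h1, h2⟩ | ⟨h1, h2⟩
      · exact Relation.EqvGen.rel _ _ (Or.inr ⟨h1.symm, h2.symm⟩)
      · exact Relation.EqvGen.symm _ _ (Relation.EqvGen.rel _ _ (Or.inr ⟨h1.symm, h2.symm⟩))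

theorem K_anti (U U' : Set V) (A A' : Finset E) (hU : U ⊆ U') (hA : A ⊆ A') :
    K G U' A' ≤ K G U A := by
  apply cls_anti
  rintro a b (h | ⟨e, he, h⟩)
  · exact Or.inl ⟨hU h.1, hU h.2⟩
  · exact Or.inr ⟨e, hA he, h⟩

open Classical in
theorem K_insert_le (U : Set V) (A : Finset E) (e : E) : K G U A ≤ K G U (insert e A) + 1 := by
  by_cases h : Relation.EqvGen (rel G U A) (G.src e) (G.dst e)
  · rw [K_insert, cls_add_of h]
    exact Nat.le_succ _
  · rw [K_insert]
    exact (cls_add_of_not h).le

open Classical in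
theorem K_empty_le (U : Set V) (A : Finset E) : K G U ∅ ≤ A.card + K G U A := by
  induction A using Finset.induction_on with
  | empty => simp
  | insert e A he ih =>
    rw [Finset.card_insert_of_notMem he]
    have := K_insert_le G U A e
    omega

/-- Tutte polynomial of the contraction of `U` restricted to the edges `F` -/
noncomputable def T (U : Set V) (F : Finset E) : MvPolynomial (Fin 2) ℚ :=
  ∑ A ∈ F.powerset, (X 0 - 1) ^ (K G U A - K G U F) * (X 1 - 1) ^ (A.card + K G U A - K G U ∅)

/-- the corresponding partition function -/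
noncomputable def Z (U : Set V) (F : Finset E) : MvPolynomial (Fin 2) ℚ :=
  ∑ A ∈ F.powerset, ((X 0 - 1) * (X 1 - 1)) ^ K G U A * (X 1 - 1) ^ A.card

theorem T_eq (U : Set V) (F : Finset E) :
    (X 0 - 1) ^ K G U F * (X 1 - 1) ^ K G U ∅ * T G U F = Z G U F := by
  rw [T, Z, Finset.mul_sum]
  refine Finset.sum_congr rfl fun A hA => ?_
  rw [Finset.mem_powerset] at hA
  have h1 := K_anti G U U A F subset_rfl hA
  have h2 := K_empty_le G U A
  obtain ⟨a, ha⟩ := Nat.exists_eq_add_of_le h1
  obtain ⟨b, hb⟩ := Nat.exists_eq_add_of_le h2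
  have e1 : K G U A - K G U F = a := by omega
  have e2 : A.card + K G U A - K G U ∅ = b := by omega
  rw [e1, e2]
  calc (X 0 - 1 : MvPolynomial (Fin 2) ℚ) ^ K G U F * (X 1 - 1) ^ K G U ∅ *
        ((X 0 - 1) ^ a * (X 1 - 1) ^ b)
      = (X 0 - 1) ^ (K G U F + a) * (X 1 - 1) ^ (K G U ∅ + b) := by ring
    _ = (X 0 - 1) ^ (K G U A) * (X 1 - 1) ^ (A.card + K G U A) := by rw [← ha, ← hb]
    _ = _ := by rw [mul_pow]; ring

theorem X_ne (i : Fin 2) : (X i - 1 : MvPolynomial (Fin 2) ℚ) ≠ 0 := by
  intro h
  have := congrArg (eval (fun _ => (0 : ℚ))) h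
  simp at this

open Classical in
theorem Z_split (U : Set V) (F : Finset E) (e : E) (he : e ∉ F) :
    Z G U (insert e F) = Z G U F +
      ∑ A ∈ F.powerset, ((X 0 - 1) * (X 1 - 1)) ^ K G U (insert e A) * (X 1 - 1) ^ (A.card + 1) := by
  rw [Z, Finset.sum_powerset_insert he, Z]
  congr 1
  refine Finset.sum_congr rfl fun A hA => ?_
  rw [Finset.mem_powerset] at hA
  rw [Finset.card_insert_of_notMem (fun h => he (hA h))]

open Classical in
/-- deletion and contraction for the partition function -/
theorem Z_edge (U : Set V) (F : Finset E) (s u : V) (hs : s ∈ U) (e : E) (he : e ∉ F)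
    (hsu : (G.src e = s ∧ G.dst e = u) ∨ (G.src e = u ∧ G.dst e = s)) :
    Z G U (insert e F) = Z G U F + (X 1 - 1) * Z G (insert u U) F := by
  rw [Z_split G U F e he]
  congr 1
  rw [Z, Finset.mul_sum]
  refine Finset.sum_congr rfl fun A _ => ?_
  rw [K_edge G U A s u hs e hsu]
  ring

open Classical in
theorem Z_loop (U : Set V) (F : Finset E) (e : E) (he : e ∉ F)
    (hl : G.src e = G.dst e ∨ (G.src e ∈ U ∧ G.dst e ∈ U)) :
    Z G U (insert e F) = X 1 * Z G U F ∧ K G U (insert e F) = K G U F := by
  have hK : ∀ A, K G U (insert e A) = K G U A := by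
    intro A
    rw [K_insert]
    apply cls_add_of
    rcases hl with h | h
    · rw [h]
      exact Relation.EqvGen.refl _
    · exact Relation.EqvGen.rel _ _ (Or.inl h)
  refine ⟨?_, hK F⟩
  rw [Z_split G U F e he, Z, Finset.mul_sum, ← Finset.sum_add_distrib]
  refine Finset.sum_congr rfl fun A _ => ?_
  rw [hK]
  ring

open Classical in
theorem T_loop (U : Set V) (F : Finset E) (e : E) (he : e ∉ F)
    (hl : G.src e = G.dst e ∨ (G.src e ∈ U ∧ G.dst e ∈ U)) :
    T G U (insert e F) = X 1 * T G U F := by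
  obtain ⟨h1, h2⟩ := Z_loop G U F e he hl
  have h3 := T_eq G U (insert e F)
  have h4 := T_eq G U F
  rw [h1, ← h4, h2] at h3
  have hne : (X 0 - 1 : MvPolynomial (Fin 2) ℚ) ^ K G U F * (X 1 - 1) ^ K G U ∅ ≠ 0 :=
    mul_ne_zero (pow_ne_zero _ (X_ne 0)) (pow_ne_zero _ (X_ne 1))
  apply mul_left_cancel₀ hne
  rw [h3]
  ring

open Classical in
/-- the edges of `F` that are not loops after contraction of `U` -/
noncomputable def nl (U : Set V) (F : Finset E) : Finset E :=
  F.filter (fun e => ¬ (G.src e = G.dst e ∨ (G.src e ∈ U ∧ G.dst e ∈ U)))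

theorem mem_nl {U : Set V} {F : Finset E} {f : E} :
    f ∈ nl G U F ↔ f ∈ F ∧ ¬ (G.src f = G.dst f ∨ (G.src f ∈ U ∧ G.dst f ∈ U)) := by
  classical
  rw [nl, Finset.mem_filter]

open Classical in
theorem T_nl (U : Set V) (F : Finset E) : (∃ c, T G U F = c * T G U (nl G U F)) ∧
    K G U F = K G U (nl G U F) := by
  induction F using Finset.strongInduction with
  | H F ih =>
    by_cases hex : ∃ e ∈ F, G.src e = G.dst e ∨ (G.src e ∈ U ∧ G.dst e ∈ U)
    · obtain ⟨e, he, hl⟩ := hex
      obtain ⟨⟨c, hc⟩, hk⟩ := ih (F.erase e) (Finset.erase_ssubset he)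
      have h1 : nl G U F = nl G U (F.erase e) := by
        ext f
        simp only [nl, Finset.mem_filter, Finset.mem_erase]
        constructor
        · rintro ⟨h2, h3⟩
          exact ⟨⟨fun h => h3 (h ▸ hl), h2⟩, h3⟩
        · rintro ⟨⟨_, h2⟩, h3⟩
          exact ⟨h2, h3⟩
      have h2 := T_loop G U (F.erase e) e (Finset.notMem_erase _ _) hl
      have h3 := (Z_loop G U (F.erase e) e (Finset.notMem_erase _ _) hl).2
      rw [Finset.insert_erase he] at h2 h3
      refine ⟨⟨X 1 * c, ?_⟩, ?_⟩
      · rw [h2, h1, hc]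
        ring
      · rw [h1, h3, hk]
    · have h1 : nl G U F = F := by
        rw [nl, Finset.filter_true_of_mem]
        intro e he hl
        exact hex ⟨e, he, hl⟩
      rw [h1]
      exact ⟨⟨1, by rw [one_mul]⟩, rfl⟩

theorem eqvGen_out {U : Set V} {a b : V}
    (h : Relation.EqvGen (rel G U ∅) a b) : a = b ∨ (a ∈ U ∧ b ∈ U) := by
  induction h with
  | rel x y h =>
    rcases h with h | ⟨e, he, _⟩
    · exact Or.inr h
    · exact absurd he (Finset.notMem_empty _)
  | refl x => exact Or.inl rfl
  | symm x y _ ih =>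
    rcases ih with h | h
    · exact Or.inl h.symm
    · exact Or.inr ⟨h.2, h.1⟩
  | trans x y z _ _ ih1 ih2 =>
    rcases ih1 with rfl | h1
    · exact ih2
    · rcases ih2 with rfl | h2
      · exact Or.inr h1
      · exact Or.inr ⟨h1.1, h2.2⟩

theorem K_empty_insert (U : Set V) (s u : V) (hs : s ∈ U) (hu : u ∉ U) :
    K G U ∅ = K G (insert u U) ∅ + 1 := by
  rw [K_insertU G U ∅ s u hs]
  apply cls_add_of_not
  intro h
  rcases eqvGen_out G h with h | h
  · exact hu (h ▸ hs)
  · exact hu h.2

open Classical in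
/-- deletion and contraction, non-bridge -/
theorem T_edge (U : Set V) (F : Finset E) (s u : V) (hs : s ∈ U) (hu : u ∉ U) (e : E) (he : e ∉ F)
    (hsu : (G.src e = s ∧ G.dst e = u) ∨ (G.src e = u ∧ G.dst e = s))
    (hK : K G U (insert e F) = K G U F) :
    T G U (insert e F) = T G U F + T G (insert u U) F := by
  have h1 := T_eq G U (insert e F)
  have h2 := T_eq G U F
  have h3 := T_eq G (insert u U) F
  have h4 := K_empty_insert G U s u hs hu
  have h5 := K_edge G U F s u hs e hsu
  rw [Z_edge G U F s u hs e he hsu, ← h2, ← h3, ← h5, hK, h4] at h1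
  have hne : (X 0 - 1 : MvPolynomial (Fin 2) ℚ) ^ K G U F * (X 1 - 1) ^ (K G (insert u U) ∅ + 1)
      ≠ 0 := mul_ne_zero (pow_ne_zero _ (X_ne 0)) (pow_ne_zero _ (X_ne 1))
  apply mul_left_cancel₀ hne
  rw [h1]
  ring

open Classical in
/-- deletion and contraction, bridge -/
theorem T_bridge (U : Set V) (F : Finset E) (s u : V) (hs : s ∈ U) (hu : u ∉ U) (e : E)
    (he : e ∉ F)
    (hsu : (G.src e = s ∧ G.dst e = u) ∨ (G.src e = u ∧ G.dst e = s))
    (hK : K G U (insert e F) ≠ K G U F) :
    T G U (insert e F) = X 0 * T G (insert u U) F := by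
  have h5 := K_edge G U F s u hs e hsu
  have hnot : ¬ Relation.EqvGen (rel G U F) s u := by
    intro h
    apply hK
    rw [h5, K_insertU G U F s u hs]
    exact cls_add_of h
  have hall : ∀ A ∈ F.powerset, K G U A = K G (insert u U) A + 1 := by
    intro A hA
    rw [Finset.mem_powerset] at hA
    rw [K_insertU G U A s u hs]
    apply cls_add_of_not
    intro h
    apply hnot
    refine Relation.EqvGen.mono ?_ _ _ h
    rintro a b (h | ⟨f, hf, h⟩)
    · exact Or.inl h
    · exact Or.inr ⟨f, hA hf, h⟩
  have hZ : Z G U F = (X 0 - 1) * (X 1 - 1) * Z G (insert u U) F := by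
    rw [Z, Z, Finset.mul_sum]
    refine Finset.sum_congr rfl fun A hA => ?_
    rw [hall A hA]
    ring
  have h1 := T_eq G U (insert e F)
  have h3 := T_eq G (insert u U) F
  have h4 := K_empty_insert G U s u hs hu
  rw [Z_edge G U F s u hs e he hsu, hZ, ← h3, h5, h4] at h1
  have hne : (X 0 - 1 : MvPolynomial (Fin 2) ℚ) ^ K G (insert u U) F *
      (X 1 - 1) ^ (K G (insert u U) ∅ + 1)
      ≠ 0 := mul_ne_zero (pow_ne_zero _ (X_ne 0)) (pow_ne_zero _ (X_ne 1))
  apply mul_left_cancel₀ hne
  rw [h1]
  ring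

/-- neighbours of `s` by edges of `F` -/
def nb (s : V) (F : Finset E) : Set V :=
  {u | u ≠ s ∧ ∃ e ∈ F, (G.src e = s ∧ G.dst e = u) ∨ (G.src e = u ∧ G.dst e = s)}

/-- the generators -/
def gens (s : V) (F : Finset E) : Set (MvPolynomial (Fin 2) ℚ) :=
  {P | ∃ W : Set V, W ⊆ nb G s F ∧ W.Nonempty ∧ P = T G (insert s W) (nl G (insert s W) F)}

theorem nb_mono (s : V) {F F' : Finset E} (h : F' ⊆ F) : nb G s F' ⊆ nb G s F := by
  rintro u ⟨h1, e, he, h2⟩
  exact ⟨h1, e, h he, h2⟩

theorem exists_edge (s : V) (F : Finset E) (hK : K G {s} F = 1) (hV : ∃ v, v ≠ s) :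
    ∃ e ∈ F, ∃ u, u ≠ s ∧ ((G.src e = s ∧ G.dst e = u) ∨ (G.src e = u ∧ G.dst e = s)) := by
  by_contra hcon
  push Not at hcon
  obtain ⟨v, hv⟩ := hV
  -- the class of `s` is `{s}`
  have hfin : Finite (Quot (rel G {s} F)) := Quot.finite _
  have hsub : Subsingleton (Quot (rel G {s} F)) :=
    (Nat.card_eq_one_iff_unique.1 hK).1
  have h1 : (Quot.mk (rel G {s} F) v) = Quot.mk _ s := Subsingleton.elim _ _
  have h2 := Quot.eqvGen_exact h1
  have h3 : ∀ a b, Relation.EqvGen (rel G {s} F) a b → (a = s ↔ b = s) := by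
    intro a b h
    induction h with
    | rel x y h =>
      rcases h with h | ⟨e, he, h4, h5⟩
      · rw [Set.mem_singleton_iff, Set.mem_singleton_iff] at h
        exact ⟨fun _ => h.2, fun _ => h.1⟩
      · constructor
        · intro hx
          by_contra hy
          exact (hcon e he y hy).1 (h4.trans hx) h5
        · intro hy
          by_contra hx
          exact (hcon e he x hx).2 h4 (h5.trans hy)
    | refl x => exact Iff.rfl
    | symm x y _ ih => exact ih.symm
    | trans x y z _ _ ih1 ih2 => exact ih1.trans ih2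
  exact hv ((h3 _ _ h2).2 rfl)

open Classical in
theorem main (s : V) (hV : ∃ v, v ≠ s) (F : Finset E) (hK : K G {s} F = 1) :
    T G {s} F ∈ Ideal.span (gens G s F) := by
  induction F using Finset.strongInduction with
  | H F ih =>
    obtain ⟨e, he, u, hu, hsu⟩ := exists_edge G s F hK hV
    set F' := F.erase e with hF'
    have heF' : e ∉ F' := Finset.notMem_erase _ _
    have hins : insert e F' = F := Finset.insert_erase he
    have hF'F : F' ⊆ F := Finset.erase_subset _ _
    have hunb : u ∈ nb G s F := ⟨hu, e, he, hsu⟩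
    -- generators for `F` containing `u`
    have hset : (insert u {s} : Set V) = insert s {u} := Set.pair_comm u s
    have hnlu : ∀ W : Set V, u ∈ W → nl G (insert s W) F = nl G (insert s W) F' := by
      intro W hW
      rw [← hins, nl, Finset.filter_insert, if_neg]
      · rfl
      · rw [not_not]
        right
        rcases hsu with ⟨h1, h2⟩ | ⟨h1, h2⟩
        · rw [h1, h2]
          exact ⟨Set.mem_insert _ _, Set.mem_insert_of_mem _ hW⟩
        · rw [h1, h2]
          exact ⟨Set.mem_insert_of_mem _ hW, Set.mem_insert _ _⟩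
    have hcontr : T G (insert u {s}) F' ∈ Ideal.span (gens G s F) := by
      obtain ⟨⟨c, hc⟩, _⟩ := T_nl G (insert u {s}) F'
      rw [hc]
      apply Ideal.mul_mem_left
      apply Ideal.subset_span
      refine ⟨{u}, Set.singleton_subset_iff.2 hunb, Set.singleton_nonempty _, ?_⟩
      rw [hnlu {u} rfl, hset]
    by_cases hb : K G {s} F = K G {s} F'
    · -- not a bridge
      have h1 := T_edge G {s} F' s u rfl hu e heF' hsu (by rw [hins]; exact hb)
      rw [hins] at h1
      rw [h1]
      refine Ideal.add_mem _ ?_ hcontr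
      have hK' : K G {s} F' = 1 := by rw [← hb]; exact hK
      refine (Ideal.span_le.2 ?_) (ih F' (Finset.erase_ssubset he) hK')
      rintro P ⟨W, hW, hWne, rfl⟩
      have hWF : W ⊆ nb G s F := hW.trans (nb_mono G s hF'F)
      by_cases huW : u ∈ W
      · apply Ideal.subset_span
        exact ⟨W, hWF, hWne, by rw [hnlu W huW]⟩
      · -- use deletion and contraction of `e` in `G_W`
        set U : Set V := insert s W with hU
        have huU : u ∉ U := by
          rw [hU, Set.mem_insert_iff]
          rintro (h | h)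
          · exact hu h
          · exact huW h
        have hsU : s ∈ U := Set.mem_insert _ _
        have hnon : ¬ (G.src e = G.dst e ∨ (G.src e ∈ U ∧ G.dst e ∈ U)) := by
          rintro (h | h)
          · rcases hsu with ⟨h1, h2⟩ | ⟨h1, h2⟩
            · rw [h1, h2] at h
              exact hu h.symm
            · rw [h1, h2] at h
              exact hu h
          · rcases hsu with ⟨h1, h2⟩ | ⟨h1, h2⟩
            · rw [h2] at h
              exact huU h.2
            · rw [h1] at h
              exact huU h.1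
        have hnlF : nl G U F = insert e (nl G U F') := by
          ext f
          rw [Finset.mem_insert, mem_nl, mem_nl, ← hins, Finset.mem_insert]
          constructor
          · rintro ⟨h1 | h1, h2⟩
            · exact Or.inl h1
            · exact Or.inr ⟨h1, h2⟩
          · rintro (h1 | ⟨h1, h2⟩)
            · exact ⟨Or.inl h1, h1 ▸ hnon⟩
            · exact ⟨Or.inr h1, h2⟩
        have he2 : e ∉ nl G U F' := fun h => heF' ((mem_nl G).1 h).1
        have hpos : ∀ (U : Set V) (A : Finset E), 0 < K G U A := by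
          intro U A
          have : Nonempty V := ⟨s⟩
          exact cls_pos _
        have hk1 : K G U (nl G U F') = 1 := by
          have h2 := (T_nl G U F').2
          have h3 := K_anti G {s} U F' F' (Set.singleton_subset_iff.2 hsU) subset_rfl
          have h4 := hpos U F'
          omega
        have hk2 : K G U (insert e (nl G U F')) = 1 := by
          have h3 := K_anti G U U (nl G U F') (insert e (nl G U F')) subset_rfl
            (Finset.subset_insert _ _)
          have h4 := hpos U (insert e (nl G U F'))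
          omega
        have h2 := T_edge G U (nl G U F') s u hsU huU e he2 hsu (by rw [hk1, hk2])
        rw [← hnlF] at h2
        have h3 : T G U (nl G U F') = T G U (nl G U F) - T G (insert u U) (nl G U F') := by
          rw [h2]; ring
        rw [h3]
        refine Ideal.sub_mem _ (Ideal.subset_span ⟨W, hWF, hWne, rfl⟩) ?_
        obtain ⟨⟨c, hc⟩, _⟩ := T_nl G (insert u U) (nl G U F')
        rw [hc]
        apply Ideal.mul_mem_left
        apply Ideal.subset_span
        refine ⟨insert u W, ?_, Set.insert_nonempty _ _, ?_⟩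
        · intro x hx
          rcases Set.mem_insert_iff.1 hx with rfl | hx
          · exact hunb
          · exact hWF hx
        · have h5 : insert s (insert u W) = insert u U := by
            rw [hU, Set.insert_comm]
          rw [h5]
          congr 1
          have h6 : nl G (insert u U) F = nl G (insert u U) F' := by
            rw [← h5]
            exact hnlu _ (Set.mem_insert _ _)
          rw [h6]
          ext f
          rw [mem_nl, mem_nl, mem_nl]
          constructor
          · rintro ⟨⟨h7, _⟩, h8⟩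
            exact ⟨h7, h8⟩
          · rintro ⟨h7, h8⟩
            exact ⟨⟨h7, fun h => h8 (h.imp id (fun h => ⟨Set.mem_insert_of_mem _ h.1,
              Set.mem_insert_of_mem _ h.2⟩))⟩, h8⟩
    · -- a bridge
      have h1 := T_bridge G {s} F' s u rfl hu e heF' hsu (by rw [hins]; exact hb)
      rw [hins] at h1
      rw [h1]
      exact Ideal.mul_mem_left _ _ hcontr

end Pool.Agent.Q281.MG
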