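import Mathlib

set_option autoImplicit false

/-!
# Counting classes of quotients
-/

namespace Pool.Agent.Q281.MG

/-- number of classes of the equivalence relation generated by `r` -/
noncomputable def cls {V : Type} (r : V → V → Prop) : ℕ := Nat.card (Quot r)

theorem cls_congr {V : Type} {r r' : V → V → Prop} (h1 : ∀ a b, r a b → Relation.EqvGen r' a b)
    (h2 : ∀ a b, r' a b → Relation.EqvGen r a b) : cls r = cls r' := by
  refine Nat.card_congr ⟨Quot.lift (fun v => Quot.mk r' v) ?_, Quot.lift (fun v => Quot.mk r v) ?_,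
    ?_, ?_⟩
  · intro a b h
    exact Quot.eqvGen_sound (h1 a b h)
  · intro a b h
    exact Quot.eqvGen_sound (h2 a b h)
  · rintro ⟨v⟩
    rfl
  · rintro ⟨v⟩
    rfl

/-- adding a pair that is already related does nothing -/
theorem cls_add_of {V : Type} {r : V → V → Prop} {a b : V} (h : Relation.EqvGen r a b) :
    cls (fun x y => r x y ∨ (x = a ∧ y = b)) = cls r := by
  apply cls_congr
  · rintro x y (hxy | ⟨rfl, rfl⟩)
    · exact Relation.EqvGen.rel _ _ hxy
    · exact h
  · intro x y hxy
    exact Relation.EqvGen.rel _ _ (Or.inl hxy)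

open Classical in
/-- adding a pair of unrelated points merges two classes -/
theorem cls_add_of_not {V : Type} [Finite V] {r : V → V → Prop} {a b : V}
    (h : ¬ Relation.EqvGen r a b) :
    cls r = cls (fun x y => r x y ∨ (x = a ∧ y = b)) + 1 := by
  have hne : (Quot.mk r a : Quot r) ≠ Quot.mk r b := fun h' => h (Quot.eqvGen_exact h')
  have : Finite (Quot r) := Quot.finite r
  have : Fintype (Quot r) := Fintype.ofFinite _
  have e : Quot (fun x y => r x y ∨ (x = a ∧ y = b)) ≃ {c : Quot r // c ≠ Quot.mk r b} :=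
    { toFun := Quot.lift (fun v => if hv : Quot.mk r v = Quot.mk r b then ⟨Quot.mk r a, hne⟩
        else ⟨Quot.mk r v, hv⟩) (by
          rintro x y (hxy | ⟨rfl, rfl⟩)
          · have : Quot.mk r x = Quot.mk r y := Quot.sound hxy
            simp only [this]
          · rw [dif_neg hne, dif_pos rfl])
      invFun := fun c => Quot.lift (fun v => Quot.mk _ v) (fun x y hxy =>
        Quot.sound (Or.inl hxy)) c.1
      left_inv := by
        rintro ⟨v⟩
        simp only
        split_ifs with hv
        · have h1 := Quot.eqvGen_exact hv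
          have h2 : Relation.EqvGen (fun x y => r x y ∨ (x = a ∧ y = b)) v b :=
            Relation.EqvGen.mono (fun _ _ h => Or.inl h) _ _ h1
          have h3 : Relation.EqvGen (fun x y => r x y ∨ (x = a ∧ y = b)) a b :=
            Relation.EqvGen.rel _ _ (Or.inr ⟨rfl, rfl⟩)
          exact Quot.eqvGen_sound (h3.trans _ _ _ h2.symm)
        · rfl
      right_inv := by
        rintro ⟨⟨v⟩, hv⟩
        simp only
        rw [dif_neg hv] }
  unfold cls
  rw [Nat.card_congr e, Nat.card_eq_fintype_card, Nat.card_eq_fintype_card,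
    Fintype.card_subtype_compl, Fintype.card_subtype_eq]
  have : 0 < Fintype.card (Quot r) := Fintype.card_pos_iff.2 ⟨Quot.mk r a⟩
  omega

theorem cls_anti {V : Type} [Finite V] {r r' : V → V → Prop} (h : ∀ a b, r a b → r' a b) :
    cls r' ≤ cls r := by
  have : Finite (Quot r) := Quot.finite r
  apply Nat.card_le_card_of_surjective
    (Quot.lift (fun v => Quot.mk r' v) (fun a b hab => Quot.sound (h a b hab)))
  rintro ⟨v⟩
  exact ⟨Quot.mk r v, rfl⟩

theorem cls_pos {V : Type} [Finite V] [Nonempty V] (r : V → V → Prop) : 0 < cls r := by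
  have : Finite (Quot r) := Quot.finite r
  have : Nonempty (Quot r) := ⟨Quot.mk r (Classical.arbitrary V)⟩
  exact Nat.card_pos

/-- quotient of a quotient -/
theorem cls_quot {V : Type} (r : V → V → Prop) (t : V → V → Prop) :
    cls (fun x y : Quot r => ∃ a b, Quot.mk r a = x ∧ Quot.mk r b = y ∧ t a b) =
      cls (fun a b => r a b ∨ t a b) := by
  symm
  refine Nat.card_congr ⟨Quot.lift (fun v => Quot.mk _ (Quot.mk r v)) ?_,
    Quot.lift (Quot.lift (fun v => Quot.mk _ v) ?_) ?_, ?_, ?_⟩
  · rintro a b (h | h)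
    · rw [Quot.sound h]
    · exact Quot.sound ⟨a, b, rfl, rfl, h⟩
  · intro a b h
    exact Quot.sound (Or.inl h)
  · rintro x y ⟨a, b, rfl, rfl, h⟩
    exact Quot.sound (Or.inr h)
  · rintro ⟨v⟩
    rfl
  · rintro ⟨⟨v⟩⟩
    rfl

end Pool.Agent.Q281.MG
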