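import Pool.Agent.Q281.MG.Enum

set_option autoImplicit false

/-!
# Deciding equality of Tutte polynomials and connectivity of explicit multigraphs
-/

namespace Pool.Agent.Q281.MG

open MvPolynomial

variable {n : ℕ} {E : Type} [DecidableEq E]

/-- merge along a list of edges -/
def allM : List (ℕ × ℕ) → List ℕ → List ℕ
  | [], ℓ => ℓ
  | e :: L, ℓ => allM L (merge ℓ e.1 e.2)

theorem faithful_allM (G : MGraph (Fin n) E) : ∀ (L : List E) (A₀ : Finset E) (ℓ : List ℕ),
    Faithful (relA G A₀) ℓ → Faithful (relA G (L.toFinset ∪ A₀)) (allM (L.map (pr G)) ℓ) := by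
  intro L
  induction L with
  | nil =>
    intro A₀ ℓ h
    simpa [allM] using h
  | cons e L ih =>
    intro A₀ ℓ h
    rw [List.map_cons, allM, List.toFinset_cons, Finset.insert_union, ← Finset.union_insert]
    apply ih
    refine (h.merge (G.src e) (G.dst e)).congr ?_ ?_
    · rintro a b (⟨f, hf, h2⟩ | ⟨rfl, rfl⟩)
      · exact ⟨f, Finset.mem_insert_of_mem hf, h2⟩
      · exact ⟨e, Finset.mem_insert_self _ _, rfl, rfl⟩
    · rintro a b ⟨f, hf, h2, h3⟩
      rcases Finset.mem_insert.1 hf with rfl | hf
      · exact Or.inr ⟨h2.symm, h3.symm⟩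
      · exact Or.inl ⟨f, hf, h2, h3⟩

theorem comps_univ {m : ℕ} (G : MGraph (Fin n) (Fin m)) : G.comps Finset.univ =
    (allM ((List.finRange m).map (pr G)) (List.range n)).dedup.length := by
  have h := faithful_allM G (List.finRange m) ∅ (List.range n) (faithful_range G)
  rw [Finset.union_empty, List.toFinset_finRange] at h
  exact h.comps

/-- leaf for the Tutte polynomial -/
def leafT (ℓ : List ℕ) (acc : List (ℕ × ℕ)) : List ℕ := [ℓ.dedup.length, acc.length]

theorem tutte_eq_of {m : ℕ} (G H : MGraph (Fin n) (Fin m))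
    (hc : G.comps Finset.univ = H.comps Finset.univ)
    (h : go leafT ((List.finRange m).map (pr G)) (List.range n) [] =
      go leafT ((List.finRange m).map (pr H)) (List.range n) []) :
    G.tutte = H.tutte := by
  set c := G.comps Finset.univ with hcdef
  have key : ∀ K : MGraph (Fin n) (Fin m), K.comps Finset.univ = c →
      K.tutte = evf (fun d : List ℕ => (X 0 - 1 : MvPolynomial (Fin 2) ℚ) ^
        ((n - c) - (n - d.getD 0 0)) * (X 1 - 1) ^ (d.getD 1 0 - (n - d.getD 0 0)))
        (go leafT ((List.finRange m).map (pr K)) (List.range n) []) := by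
    intro K hK
    rw [← enum K leafT _ (fun A => (X 0 - 1 : MvPolynomial (Fin 2) ℚ) ^
      (K.rank Finset.univ - K.rank A) * (X 1 - 1) ^ (A.card - K.rank A))]
    · rfl
    · intro A acc ℓ hℓ hacc hA
      have h1 : K.comps A = ℓ.dedup.length := hℓ.comps
      have h2 : A.card = acc.length := by
        rw [← hA, List.toFinset_card_of_nodup hacc]
      simp only [leafT, MGraph.rank, hK, Nat.card_eq_fintype_card, Fintype.card_fin, h1, h2,
        List.length_map, List.getD_cons_zero, List.getD_cons_succ]
  rw [key G rfl, key H hc.symm, h]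

end Pool.Agent.Q281.MG
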